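import Pool.Agent.H23.Iso

/-! The Divisibility Condition is sufficient for `(r, t) = (4, 3)`. -/

open Pool.Agent.H23.Iso

theorem Pool.Agent.Results.MP_369736_co.FourThree.full :
    Sufficient 4 3 ∧ ∃ r t : ℕ, 4 ≤ r ∧ 2 ≤ t ∧ Sufficient r t :=
  ⟨suff, 4, 3, le_rfl, by norm_num, suff⟩

theorem Pool.Agent.Results.MP_369736_co.FourThree.result : Sufficient 4 3 :=
  Pool.Agent.Results.MP_369736_co.FourThree.full.1
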